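import Mathlib
import Pool.Agent.helper35.DR.SpecR

set_option autoImplicit false

namespace Pool.Agent.DR

open Pool.Agent.helper58.DC Pool.Agent.DI

theorem RPA_sup {E A : Type} [Group E] [Group A] (q : E →* A) (hq : Function.Surjective q)
    (S : Subgroup E) (N : Subgroup A) : S ⊔ N.comap q = ⊤ ↔ S.map q ⊔ N = ⊤ := by
  have h1 : (S.map q ⊔ N).comap q = S ⊔ N.comap q := by
    rw [← Subgroup.comap_sup_eq q (S.map q) N hq, Subgroup.comap_map_eq, sup_assoc]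
    congr 1
    refine sup_eq_right.2 ?_
    intro x hx
    rw [MonoidHom.mem_ker] at hx
    rw [Subgroup.mem_comap, hx]
    exact N.one_mem
  rw [← h1]
  constructor
  · intro h
    rw [eq_top_iff]
    intro a _
    obtain ⟨e, rfl⟩ := hq a
    have : e ∈ (S.map q ⊔ N).comap q := by rw [h]; trivial
    exact this
  · intro h
    rw [h]
    exact Subgroup.comap_top q

theorem RPA_cov (hC1 : C1_stmt) (hC9 : C9_stmt) (hC10 : C10_stmt) (hC16 : C16_stmt)
    (hIM : IM_stmt) {G E A : Type} [Group G] [Group E] [Group A] [Finite G] [Finite E]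
    (X : Extension G E A) (p : ℕ) [Fact p.Prime] (M : Ideal (integralClosure ℤ ℂ))
    (hM : M.IsMaximal) (hp : (p : integralClosure ℤ ℂ) ∈ M) (χ : G → ℂ) (hχ : χ ∈ Irr G)
    (hst : Stable X M χ) (C : Finset (Subgroup G)) (hC : IsRadical p C) (ψ : G → ℂ)
    (hψ : ψ ∈ IrrOn (nrm C)) :
    Cov M X.inc.range (omega (ext0 X.inc χ)) (ext0 X.inc ψ) ↔ Induces M ψ χ := by
  constructor
  · intro h
    obtain ⟨b, hb, hψb⟩ := hC9 G p M hM hp C hC ψ hψ
    obtain ⟨_, hsym, htr, _⟩ := hC1 p M hM hp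
    have h16 := hC16 G E p M hM hp X.inc X.inc_injective ψ b hψb
    have hbχ : Induces M b χ := by
      refine hC10 G E A X p M hM hp b hb χ hχ hst ?_
      intro g hg
      exact htr _ _ _ (hsym _ _ (h16 g)) (h g hg)
    exact (hIM G M ψ b χ).2.2.1 hψb hbχ
  · intro h g _
    exact hC16 G E p M hM hp X.inc X.inc_injective ψ χ h g

theorem RPA_term (hB13 : B13_stmt) (hC1 : C1_stmt) (hC9 : C9_stmt) (hC10 : C10_stmt)
    (hC16 : C16_stmt) (hIM : IM_stmt) (hCFE : CFE_stmt) (hRST : RST_stmt)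
    {G E A : Type} [Group G] [Group E] [Group A] [Finite G] [Finite E]
    (X : Extension G E A) (p : ℕ) [Fact p.Prime] (M : Ideal (integralClosure ℤ ℂ))
    (hM : M.IsMaximal) (hp : (p : integralClosure ℤ ℂ) ∈ M) (χ : G → ℂ) (hχ : χ ∈ Irr G)
    (hst : Stable X M χ) (N : Subgroup A) (hN : N.Normal) (D : ℤ)
    (C : Finset (Subgroup G)) (hC : IsRadical p C) :
    hf p M X.inc.range (N.comap X.proj) (omega (ext0 X.inc χ)) D (nrm (cmap X.inc C)) =
    ∑ᶠ ψ ∈ {ψ : G → ℂ | ψ ∈ IrrOn (nrm C) ∧ Induces M ψ χ ∧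
      (X.stab C ψ).map X.proj ⊔ N = ⊤}, relT X p N C ψ D := by
  have hne : C.Nonempty := by
    obtain ⟨P₀, hP₀, _⟩ := hC.radical
    exact ⟨P₀, hP₀⟩
  obtain ⟨hker, hnr, hstab⟩ := hRST G E A X C hC.chain hne
  have hG1 : X.inc.range.Normal := by
    rw [← hker]
    exact X.proj.normal_ker
  have hG2 : (N.comap X.proj).Normal := hN.comap X.proj
  have hle : X.inc.range ≤ N.comap X.proj := by
    rw [← hker]
    intro x hx
    rw [MonoidHom.mem_ker] at hx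
    rw [Subgroup.mem_comap, hx]
    exact N.one_mem
  rw [hCFE E p M X.inc.range (N.comap X.proj) (nrm (cmap X.inc C)) hG1 hG2 hle
    (omega (ext0 X.inc χ)) D]
  obtain ⟨_, hirr, hex, hinj, _, _⟩ := hB13 G E p X.inc X.inc_injective (nrm C)
  symm
  refine finsum_mem_eq_of_bijOn (ext0 X.inc) ⟨?_, ?_, ?_⟩ ?_
  · rintro ψ ⟨h1, h2, h3⟩
    refine ⟨?_, ?_, ?_⟩
    · rw [hnr]
      exact (hirr ψ).1 h1
    · exact (RPA_cov hC1 hC9 hC10 hC16 hIM X p M hM hp χ hχ hst C hC ψ h1).2 h2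
    · rw [(hstab ψ h1).1]
      exact (RPA_sup X.proj X.proj_surjective _ _).2 h3
  · intro ψ _ ψ' _ h
    exact hinj ψ ψ' h
  · rintro φ ⟨h1, h2, h3⟩
    rw [hnr] at h1
    obtain ⟨ψ, rfl⟩ := hex φ h1
    have hψ : ψ ∈ IrrOn (nrm C) := (hirr ψ).2 h1
    refine ⟨ψ, ⟨hψ, ?_, ?_⟩, rfl⟩
    · exact (RPA_cov hC1 hC9 hC10 hC16 hIM X p M hM hp χ hχ hst C hC ψ hψ).1 h2
    · rw [(hstab ψ hψ).1] at h3
      exact (RPA_sup X.proj X.proj_surjective _ _).1 h3
  · rintro ψ ⟨h1, h2, h3⟩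
    obtain ⟨hs1, hs2, _⟩ := hstab ψ h1
    unfold relT
    rw [hs1, hnr, ← hs2]

theorem RPA (hA7 : A7_stmt) (hA8 : A8_stmt) (hA14 : A14_stmt) (hB13 : B13_stmt)
    (hC1 : C1_stmt) (hC9 : C9_stmt) (hC10 : C10_stmt) (hC16 : C16_stmt) (hIM : IM_stmt)
    (hCFE : CFE_stmt) (hRST : RST_stmt) : RPA_stmt := by
  intro G E A _ _ _ _ _ X p _ M hM hp hop χ hχ hst N hN D hsum
  have hop' : IsOp p X.inc.range ⊥ := (hA14 G E p X.inc X.inc_injective).2.1.1 hop
  have hker : X.proj.ker = X.inc.range := by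
    ext e
    rw [MonoidHom.mem_ker, MonoidHom.mem_range]
    exact X.exact e
  have hnorm : X.inc.range.Normal := by
    rw [← hker]
    exact X.proj.normal_ker
  have h7 := hA7 E p X.inc.range ⊥ ⊤ (hf p M X.inc.range (N.comap X.proj)
    (omega (ext0 X.inc χ)) D) hop' (by
      have : nz X.inc.range = ⊤ := Subgroup.normalizer_eq_top_iff.2 hnorm
      rw [this]
      exact le_top)
  rw [hsum, ← hA8 G E p X.inc X.inc_injective ⊤] at h7
  unfold Rel
  rw [← h7]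
  refine finsum_mem_congr rfl fun C hC => ?_
  rw [top_inf_eq, RPA_term hB13 hC1 hC9 hC10 hC16 hIM hCFE hRST X p M hM hp χ hχ hst N hN D C hC]

end Pool.Agent.DR
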